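import Pool.Agent.Q269.SX.St

/-!
# Project SX (helper269): job KDX, the cocycle of a family of elements of `K`
-/

set_option autoImplicit false
set_option linter.all false

open scoped Classical
open Polynomial IsDedekindDomain Finset

namespace Pool.Agent.Q24.SX

open Pool.Agent.Y713.SE (hp Pw cl)
open Pool.Agent.Y713.SE.Dat (au rs)
open Pool.Agent.Q269.SX

theorem t_KDX : S_KDX := by
  intro n K _ D E _ _ _ _ mi hmi
  have h2K : (2 : K) ≠ 0 := by exact_mod_cast D.hne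
  have h2E : (2 : E) ≠ 0 := by
    have := (D.base E).hne
    exact_mod_cast this
  haveI : NeZero (2 : E) := ⟨h2E⟩
  have hζ : (D.base E).ζ = -1 := by
    have h1 := (D.base E).hζ
    exact h1.eq_neg_one_of_two_right
  have hm0 : ∀ i, algebraMap K E (mi i) ≠ 0 := fun i => (_root_.map_ne_zero _).2 (hmi i)
  have hex : ∀ i, ∃ θ : E, θ ≠ 0 ∧ θ ^ 2 = algebraMap K E (mi i) := by
    intro i
    obtain ⟨z, hz⟩ := IsSepClosed.exists_pow_nat_eq (k := E) (algebraMap K E (mi i)) 2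
    refine ⟨z, ?_, hz⟩
    rintro rfl
    rw [zero_pow two_ne_zero] at hz
    exact hm0 i hz.symm
  choose θ hθ0 hθ2 using hex
  have hσ : ∀ (σ : E ≃ₐ[K] E) i, σ (θ i) = θ i ∨ σ (θ i) = - θ i := by
    intro σ i
    have h1 : σ (θ i) ^ 2 = θ i ^ 2 := by
      rw [← map_pow, hθ2, AlgEquiv.commutes]
    exact sq_eq_sq_iff_eq_or_eq_neg.1 h1
  set χ : (E ≃ₐ[K] E) → Fin n → ℕ := fun σ i => if σ (θ i) = θ i then 0 else 1 with hχ
  have hχ1 : ∀ (σ : E ≃ₐ[K] E) i, σ (θ i) = (-1) ^ χ σ i * θ i := by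
    intro σ i
    simp only [hχ]
    split_ifs with h
    · rw [h, pow_zero, one_mul]
    · rw [pow_one, (hσ σ i).resolve_left h, neg_one_mul]
  refine ⟨χ, ⟨fun i j => θ i / θ j, fun i j => mi i / mi j, fun i j => div_ne_zero (hθ0 i) (hθ0 j),
    ?_, ?_⟩, ⟨?_, ?_⟩, ?_⟩
  · intro σ i j
    rw [hζ, map_div₀, hχ1, hχ1]
    have h1 : ((-1 : E) ^ χ σ j) ≠ 0 := pow_ne_zero _ (by simp)
    have h2 : ((-1 : E) ^ χ σ j) * (-1) ^ χ σ j = 1 := by
      rw [← mul_pow]; norm_num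
    have h3 := hθ0 j
    field_simp
  · intro i j
    rw [div_pow, hθ2, hθ2, map_div₀]
  · -- locally constant
    have h1 : IsLocallyConstant (fun (σ : E ≃ₐ[K] E) => fun i => σ (θ i)) := by
      rw [IsLocallyConstant.iff_exists_open]
      intro σ
      have h2 : ∀ i, ∃ U : Set (E ≃ₐ[K] E), IsOpen U ∧ σ ∈ U ∧ ∀ τ ∈ U, τ (θ i) = σ (θ i) := by
        intro i
        obtain ⟨U, hU, hσU, h⟩ := (IsLocallyConstant.iff_exists_open _).1
          (Pool.Agent.Y713.SE.locConst_apply (K := K) (θ i)) σ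
        exact ⟨U, hU, hσU, h⟩
      choose U hU hσU h using h2
      refine ⟨⋂ i, U i, isOpen_iInter_of_finite hU, Set.mem_iInter.2 hσU, fun τ hτ => ?_⟩
      funext i
      exact h i τ (Set.mem_iInter.1 hτ i)
    have h2 := h1.comp (fun (v : Fin n → E) => cl ((D.base E).PT
      (fun i => if v i = θ i then 0 else 1)))
    exact h2
  · intro σ τ
    show cl ((D.base E).PT (χ (σ * τ))) = cl ((D.base E).PT (χ σ)) *
      D.mC (au σ) (cl ((D.base E).PT (χ τ)))
    rw [D.mC_PT]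
    have h1 : cl ((D.base E).PT (χ σ)) * cl ((D.base E).PT (χ τ)) =
        cl ((D.base E).PT (fun i => χ σ i + χ τ i)) :=
      (Pool.Agent.Q269.SL.cl_PT_add _ _ _).symm
    have h2 : ∀ i, (-1 : E) ^ χ (σ * τ) i = (-1) ^ (χ σ i + χ τ i) := by
      intro i
      have h3 : (σ * τ) (θ i) = (-1) ^ χ (σ * τ) i * θ i := hχ1 _ _
      rw [AlgEquiv.mul_apply, hχ1 τ i, map_mul, map_pow, map_neg, map_one, hχ1 σ i, ← mul_assoc,
        ← pow_add] at h3
      rw [add_comm]
      exact (mul_right_cancel₀ (hθ0 i) h3).symm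
    rw [h1, (D.base E).cl_PT, (D.base E).cl_PT]
    refine Finset.prod_congr rfl fun k _ => ?_
    have h3 : ∀ a : ℕ, cl ((D.base E).PP k) ^ a = cl ((D.base E).PP k) ^ (a % 2) := fun a => by
      conv_lhs => rw [← Nat.div_add_mod a 2, pow_add, pow_mul, (D.base E).cl_PP_pow, one_pow,
        one_mul]
    have h4 : χ (σ * τ) k ≡ χ σ k + χ τ k [MOD 2] := by
      have h5 := h2 k
      rw [← hζ] at h5
      exact (D.base E).ζ_modEq h5
    rw [h3, h3 (χ σ k + χ τ k), h4]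
  · intro i j
    refine ⟨mi j, hmi j, ?_⟩
    show mi i * mi j = mi j ^ 2 * (mi i / mi j)
    have := hmi j
    field_simp

end Pool.Agent.Q24.SX
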